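import Pool.Agent.Q255.IR.Stm
import Pool.Agent.H305R2.MertensM

/-!
# Job PR2 of project IR
-/

set_option autoImplicit false

namespace Pool.Agent.Q24.IR

open Filter Topology Pool.Agent.Q255.IR Pool.Agent.Q255.IC

/-- A sum over the first `π(x)` primes is a sum over the primes up to `x`. -/
lemma sum_pr (f : ℕ → ℝ) (x : ℕ) : ∑ k ∈ Finset.range (Nat.primeCounting x), f (pr k) =
    ∑ p ∈ (Finset.Icc 1 x).filter Nat.Prime, f p := by
  have hc : Nat.primeCounting x = Nat.count Nat.Prime (x + 1) := rfl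
  refine Finset.sum_nbij' (fun k => pr k) (fun p => Nat.count Nat.Prime p) ?_ ?_ ?_ ?_ ?_
  · intro k hk
    rw [Finset.mem_range, hc] at hk
    have h1 : pr k < x + 1 := Nat.nth_lt_of_lt_count hk
    rw [Finset.mem_filter, Finset.mem_Icc]
    exact ⟨⟨(pr_prime k).one_lt.le, by omega⟩, pr_prime k⟩
  · intro p hp
    rw [Finset.mem_filter, Finset.mem_Icc] at hp
    rw [Finset.mem_range, hc]
    exact Nat.count_strict_mono hp.2 (by omega)
  · intro k _
    exact Nat.count_nth_of_infinite Nat.infinite_setOfPred_prime k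
  · intro p hp
    exact Nat.nth_count (Finset.mem_filter.1 hp).2
  · intro k _
    rfl

lemma pr_ge (k : ℕ) : k + 2 ≤ pr k := Nat.add_two_le_nth_prime k

lemma inv_sq_le (k : ℕ) : 1 / (pr k : ℝ) ^ 2 ≤ 1 / ((k : ℝ) + 1) ^ 2 := by
  have h1 : (k : ℝ) + 1 ≤ pr k := by
    have := pr_ge k
    have h2 : k + 1 ≤ pr k := by omega
    exact_mod_cast h2
  have h0 : (0 : ℝ) < (k : ℝ) + 1 := by positivity
  exact one_div_le_one_div_of_le (by positivity) (pow_le_pow_left₀ h0.le h1 2)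

lemma summable_sq : Summable fun k : ℕ => 1 / ((k : ℝ) + 1) ^ 2 := by
  have h := (summable_nat_add_iff 1).2 (Real.summable_one_div_nat_pow.2 (show 1 < 2 by norm_num))
  refine h.congr (fun k => ?_)
  push_cast
  rfl

/-- A sequence which is `O(p_k^{-2})` has a convergent series. -/
lemma conv_of_bound {e : ℕ → ℝ} {C : ℝ} (h : ∀ᶠ k in atTop, |e k| ≤ C * (1 / (pr k : ℝ) ^ 2)) :
    ∃ l : ℝ, Tendsto (fun x : ℕ => ∑ k ∈ Finset.range (Nat.primeCounting x), e k) atTop (𝓝 l) := by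
  have hs : Summable e := by
    refine Summable.of_norm_bounded_eventually_nat (summable_sq.mul_left |C|) ?_
    filter_upwards [h] with k hk
    rw [Real.norm_eq_abs]
    refine hk.trans ?_
    have h0 : 0 ≤ 1 / (pr k : ℝ) ^ 2 := by positivity
    calc C * (1 / (pr k : ℝ) ^ 2) ≤ |C| * (1 / (pr k : ℝ) ^ 2) :=
          mul_le_mul_of_nonneg_right (le_abs_self C) h0
      _ ≤ _ := mul_le_mul_of_nonneg_left (inv_sq_le k) (abs_nonneg C)
  exact ⟨_, hs.hasSum.tendsto_sum_nat.comp Nat.tendsto_primeCounting⟩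

lemma artanh_bound {v : ℝ} (hv : |v| ≤ 1 / 2) :
    |(Real.log ((1 + v) / (1 - v)) / 2) ^ 2 - v ^ 2| ≤ 6 * v ^ 4 := by
  have hv1 := abs_le.1 hv
  have h1 := Real.abs_log_sub_add_sum_range_le (x := v) (by linarith) 2
  have h2 := Real.abs_log_sub_add_sum_range_le (x := -v) (by rw [abs_neg]; linarith) 2
  rw [Finset.sum_range_succ, Finset.sum_range_one] at h1 h2
  rw [abs_neg] at h2
  have h3 : |v| ^ (2 + 1) / (1 - |v|) ≤ 2 * |v| ^ 3 := by
    rw [div_le_iff₀ (by linarith)]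
    have h0 : 0 ≤ |v| ^ 3 := by positivity
    have h00 := mul_nonneg h0 (sub_nonneg.2 hv)
    have e : |v| ^ (2 + 1) = |v| ^ 3 := by norm_num
    rw [e]
    linarith
  have h4 := h1.trans h3
  have h5 := h2.trans h3
  rw [Real.log_div (by linarith) (by linarith)]
  rw [sub_neg_eq_add] at h5
  set a := Real.log (1 + v)
  set b := Real.log (1 - v)
  have h6 : |(a - b) / 2 - v| ≤ 2 * |v| ^ 3 := by
    rw [abs_le] at h4 h5 ⊢
    norm_num at h4 h5
    constructor <;> linarith [h4.1, h4.2, h5.1, h5.2]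
  have h7 : |(a - b) / 2 + v| ≤ 3 * |v| := by
    have h8 : |(a - b) / 2 + v| ≤ |(a - b) / 2 - v| + |2 * v| := by
      have := abs_add_le ((a - b) / 2 - v) (2 * v)
      have e : (a - b) / 2 - v + 2 * v = (a - b) / 2 + v := by ring
      rwa [e] at this
    rw [abs_mul, abs_two] at h8
    have h9 : |v| ^ 3 ≤ 1 / 4 * |v| := by
      have : |v| ^ 2 ≤ 1 / 4 := by
        have := abs_nonneg v
        nlinarith
      have h0 := abs_nonneg v
      nlinarith
    have h0 := abs_nonneg v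
    linarith
  have e1 : ((a - b) / 2) ^ 2 - v ^ 2 = ((a - b) / 2 - v) * ((a - b) / 2 + v) := by ring
  rw [e1, abs_mul]
  calc |(a - b) / 2 - v| * |(a - b) / 2 + v| ≤ (2 * |v| ^ 3) * (3 * |v|) :=
        mul_le_mul h6 h7 (abs_nonneg _) (by positivity)
    _ = 6 * |v| ^ 4 := by ring
    _ = 6 * v ^ 4 := by rw [← abs_pow, abs_of_nonneg (by positivity)]

lemma log_one_add_bound {y : ℝ} (hy : |y| ≤ 1 / 2) : |Real.log (1 + y) / 2 - y / 2| ≤ y ^ 2 := by
  have h2 := Real.abs_log_sub_add_sum_range_le (x := -y) (by rw [abs_neg]; linarith) 1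
  rw [Finset.sum_range_one, abs_neg, sub_neg_eq_add] at h2
  have h3 : |y| ^ (1 + 1) / (1 - |y|) ≤ 2 * y ^ 2 := by
    rw [div_le_iff₀ (by linarith)]
    have : |y| ^ (1 + 1) = y ^ 2 := by rw [one_add_one_eq_two, sq_abs]
    rw [this]
    nlinarith [sq_nonneg y]
  have h4 := h2.trans h3
  rw [abs_le] at h4 ⊢
  norm_num at h4
  constructor <;> linarith [h4.1, h4.2]

/-- The estimates at one prime. -/
lemma one_prime {p : ℕ} {a : ℝ} (hp : 16 ≤ p) (ha : |a| ≤ 2 * √p) :
    |(Real.log ((p + 1 + a) / (p + 1 - a)) / 2) ^ 2 - a ^ 2 / (p : ℝ) ^ 2| ≤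
      108 * (1 / (p : ℝ) ^ 2) ∧
    |Real.log ((p + 1 + a) * (p + 1 - a) / (p : ℝ) ^ 2) / 2 - (1 / p - a ^ 2 / (p : ℝ) ^ 2 / 2)| ≤
      50 * (1 / (p : ℝ) ^ 2) := by
  have hp' : (16 : ℝ) ≤ p := by exact_mod_cast hp
  set q : ℝ := (p : ℝ) with hq
  have hq0 : 0 < q := by linarith
  have ha2 : a ^ 2 ≤ 4 * q := by
    have h1 : a ^ 2 = |a| ^ 2 := (sq_abs a).symm
    rw [h1]
    calc |a| ^ 2 ≤ (2 * √q) ^ 2 := pow_le_pow_left₀ (abs_nonneg a) ha 2
      _ = 4 * q := by rw [mul_pow, Real.sq_sqrt hq0.le]; norm_num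
  have hs : √q ≤ q / 4 := by
    rw [Real.sqrt_le_left (by linarith)]
    nlinarith
  have ha1 : |a| ≤ q / 2 := by linarith
  have hq2 : 0 < q ^ 2 := by positivity
  constructor
  · set v := a / (q + 1) with hv
    have hv1 : |v| ≤ 1 / 2 := by
      rw [hv, abs_div, abs_of_pos (show 0 < q + 1 by linarith), div_le_iff₀ (by linarith)]
      linarith
    have e1 : (q + 1 + a) / (q + 1 - a) = (1 + v) / (1 - v) := by
      have h2 := abs_le.1 ha1
      have h3 : q + 1 - a ≠ 0 := by linarith [h2.1, h2.2]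
      have h4 : q + 1 ≠ 0 := by linarith
      have h5 : 1 - v ≠ 0 := by
        have := abs_le.1 hv1
        linarith [this.1, this.2]
      rw [div_eq_div_iff h3 h5, hv]
      field_simp
    rw [e1]
    have h1 := artanh_bound hv1
    have h2 : v ^ 4 ≤ 16 * (1 / q ^ 2) := by
      have h3 : v ^ 2 ≤ 4 / q := by
        rw [hv, div_pow, div_le_div_iff₀ (by positivity) hq0]
        nlinarith
      have h4 : v ^ 4 = (v ^ 2) ^ 2 := by ring
      rw [h4]
      calc (v ^ 2) ^ 2 ≤ (4 / q) ^ 2 := pow_le_pow_left₀ (sq_nonneg v) h3 2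
        _ = 16 * (1 / q ^ 2) := by rw [div_pow]; ring
    have h3 : |v ^ 2 - a ^ 2 / q ^ 2| ≤ 12 * (1 / q ^ 2) := by
      have e2 : v ^ 2 - a ^ 2 / q ^ 2 = -(a ^ 2 * (2 * q + 1) / ((q + 1) ^ 2 * q ^ 2)) := by
        rw [hv]
        field_simp
        ring
      rw [e2, abs_neg, abs_of_nonneg (by positivity), div_le_iff₀ (by positivity)]
      have e3 : 12 * (1 / q ^ 2) * ((q + 1) ^ 2 * q ^ 2) = 12 * (q + 1) ^ 2 := by
        field_simp
      rw [e3]
      nlinarith
    calc |(Real.log ((1 + v) / (1 - v)) / 2) ^ 2 - a ^ 2 / q ^ 2|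
        = |((Real.log ((1 + v) / (1 - v)) / 2) ^ 2 - v ^ 2) + (v ^ 2 - a ^ 2 / q ^ 2)| := by ring_nf
      _ ≤ _ := abs_add_le _ _
      _ ≤ 6 * v ^ 4 + 12 * (1 / q ^ 2) := add_le_add h1 h3
      _ ≤ 108 * (1 / q ^ 2) := by linarith
  · set y := 2 / q + 1 / q ^ 2 - a ^ 2 / q ^ 2 with hy
    have e1 : (q + 1 + a) * (q + 1 - a) / q ^ 2 = 1 + y := by
      rw [hy]
      field_simp
      ring
    have h1 : |y| ≤ 7 / q := by
      have h2 : a ^ 2 / q ^ 2 ≤ 4 / q := by
        rw [div_le_div_iff₀ hq2 hq0]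
        nlinarith
      have h3 : 0 ≤ a ^ 2 / q ^ 2 := by positivity
      have h4 : 1 / q ^ 2 ≤ 1 / q := by
        rw [div_le_div_iff₀ hq2 hq0]
        nlinarith
      have h5 : 0 < 1 / q := by positivity
      have h6 : 0 < 1 / q ^ 2 := by positivity
      have e2 : 2 / q = 2 * (1 / q) := by ring
      have e3 : 4 / q = 4 * (1 / q) := by ring
      have e4 : 7 / q = 7 * (1 / q) := by ring
      rw [hy, abs_le, e4, e2]
      rw [e3] at h2
      constructor <;> linarith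
    have h2 : |y| ≤ 1 / 2 := by
      refine h1.trans ?_
      rw [div_le_iff₀ hq0]
      linarith
    have h3 := log_one_add_bound h2
    have h4 : y ^ 2 ≤ 49 * (1 / q ^ 2) := by
      rw [← sq_abs]
      calc |y| ^ 2 ≤ (7 / q) ^ 2 := pow_le_pow_left₀ (abs_nonneg y) h1 2
        _ = 49 * (1 / q ^ 2) := by rw [div_pow]; ring
    rw [e1]
    have h6 : 0 < 1 / q ^ 2 := by positivity
    have e5 : Real.log (1 + y) / 2 - (1 / q - a ^ 2 / q ^ 2 / 2) =
        (Real.log (1 + y) / 2 - y / 2) + 1 / q ^ 2 / 2 := by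
      rw [hy]
      ring
    rw [e5]
    refine (abs_add_le _ _).trans ?_
    rw [abs_of_pos (show 0 < 1 / q ^ 2 / 2 by positivity)]
    linarith

open Classical in
/-- **Job PR2.** -/
theorem t_PR2 (h_HAS : S_HAS) : S_PR2 := by
  intro A B hΔ hRS
  obtain ⟨cR, hcR⟩ := hRS
  set u2 : ℕ → ℝ := fun k => if Good A B (pr k) then aP A B (pr k) ^ 2 / (pr k : ℝ) ^ 2 else 0
    with hu2
  have hev : ∀ᶠ k : ℕ in atTop, 16 ≤ pr k := by
    filter_upwards [eventually_ge_atTop 16] with k hk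
    have := pr_ge k
    omega
  -- the two error terms
  obtain ⟨l1, hl1⟩ := conv_of_bound (e := fun k => bE A B k ^ 2 - u2 k) (C := 108) (by
    filter_upwards [hev] with k hk
    by_cases hg : Good A B (pr k)
    · simp only [bE, hu2, if_pos hg]
      exact (one_prime hk (h_HAS A B _ hΔ hg)).1
    · simp only [bE, hu2, if_neg hg]
      simp)
  set mt : ℕ → ℝ := fun k => if Good A B (pr k) then
    Real.log ((pr k + 1 + aP A B (pr k)) * (pr k + 1 - aP A B (pr k)) / (pr k : ℝ) ^ 2) / 2 else 0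
    with hmt
  set g1 : ℕ → ℝ := fun k => if Good A B (pr k) then 1 / (pr k : ℝ) else 0 with hg1
  obtain ⟨l2, hl2⟩ := conv_of_bound (e := fun k => mt k - (g1 k - u2 k / 2)) (C := 50) (by
    filter_upwards [hev] with k hk
    by_cases hg : Good A B (pr k)
    · simp only [hmt, hu2, hg1, if_pos hg]
      exact (one_prime hk (h_HAS A B _ hΔ hg)).2
    · simp only [hmt, hu2, hg1, if_neg hg]
      simp)
  -- the primes which are not good
  obtain ⟨l3, hl3⟩ := conv_of_bound (e := fun k => 1 / (pr k : ℝ) - g1 k) (C := 1) (by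
    have hn : (2 * (4 * A ^ 3 + 27 * B ^ 2)).natAbs ≠ 0 := by
      rw [Ne, Int.natAbs_eq_zero]
      exact mul_ne_zero two_ne_zero hΔ
    filter_upwards [eventually_ge_atTop (2 * (4 * A ^ 3 + 27 * B ^ 2)).natAbs] with k hk
    have hg : Good A B (pr k) := by
      refine ⟨pr_prime k, fun hd => ?_⟩
      have h1 := Int.natCast_dvd.1 hd
      have h2 := Nat.le_of_dvd (Nat.pos_of_ne_zero hn) h1
      have := pr_ge k
      omega
    simp only [hg1, if_pos hg, sub_self, abs_zero]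
    positivity)
  obtain ⟨M, hM⟩ := Pool.Agent.H305R2.mertens_inv_tendsto
  have hM' : Tendsto (fun x : ℕ => ∑ k ∈ Finset.range (Nat.primeCounting x), 1 / (pr k : ℝ) -
      Real.log (Real.log x)) atTop (𝓝 M) := by
    refine hM.congr (fun x => ?_)
    rw [← sum_pr (fun p => 1 / (p : ℝ)) x]
  refine ⟨l1 + cR, l2 + (M - l3) - cR / 2, ?_, ?_⟩
  · refine (hl1.add hcR).congr (fun x => ?_)
    simp only [V, Finset.sum_sub_distrib, hu2]
    ring
  · refine ((hl2.add (hM'.sub hl3)).sub (hcR.div_const 2)).congr (fun x => ?_)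
    simp only [mE, Finset.sum_sub_distrib, ← Finset.sum_div]
    simp only [hu2, hmt]
    ring

end Pool.Agent.Q24.IR
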